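import Pool.Agent.Zk74.MC.Main

set_option autoImplicit false

/-! # The strong motivic monodromy conjecture, global and at the origin, for a class which is closed
# under sums, products, general forms, powers, automorphisms and cones

`M` is a commutative ring with a unit `L`, for example `M = K₀(Var_ℂ)[1/L]`. The class `Mot`
(`Pool.Agent.Zk74.MC.Defs`) consists of ideals of polynomial rings over `ℂ`, given by finite families of
generators, together with their motivic zeta functions `Z = ∫ T^(ord φ^* I) dμ`, the integral over
all arcs `φ` (`Mot L false`), or over the arcs with the origin `0` (`Mot L true`). The set of these arcs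
has the volume `1`; so the motivic zeta function `Z_{F,0}^mot` of the problem is `L⁻ⁿ Z`. The
classes are the least ones with the following properties.

Ideals in the class:

* global: the unit ideal, `(x ^ m)`, all non-zero ideals of `ℂ[x, y]`, the ideals of `ℂ[x₀, x₁, x₂]`
  generated by forms of the same degree, three of which are algebraically independent, the ideals
  generated by forms of the same degree without a common zero outside the origin (`MG`);
* at the origin: the germs of these ideals, and the principal ideals of
  `h(x₁, x₂) (f₀(x₁, x₂) + ∑ y_j f_j(x₁, x₂)) ^ a` (`GermLin`);
* all the ideals such that the series of the volumes of the sets `ord φ^* I ≥ e` has only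
  denominators `1 - L⁻ⁿ Tᵃ` which belong to Rees divisors (`rees`; for instance, products of powers of
  the ideals of all the linear subspaces in a finite set which is closed under intersections);
* the products of ideals of minors of generic and generic symmetric matrices and of Pfaffians
  (`det`), and the products of ideals of minors of generic Hankel matrices (`hankel`). The numbers
  `N_d = ∑_t max (p t - d, 0)` and `ν_d` are those of the exceptional divisors of the blow-ups of the
  loci of the matrices of rank at most `0, 1, 2, …`; here, too, the condition is on the series of the
  volumes of the sets `ord φ^* I ≥ e`.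

Operations:

* sums `I + J` and products `I J` in disjoint sets of variables;
* if the ideal `h ∏_t (f_{t, j})_j ^ a_t` is in the class, then the hypersurface
  `h(x) ∏_t (∑_j y_{t, j} f_{t, j}(x)) ^ a_t`, with further variables `y_{t, j}`, is in the class;
* if the principal ideal `(g)` is in the class, then `(g ^ k)` is in the class;
* an ideal generated by forms of the same degree is in the global class if and only if it is in the
  class at the origin;
* polynomial automorphisms of the affine space (at the origin: which preserve the origin), and
  other index sets.

For example, the class contains the polynomial `F = ∑_j y_j Δ_j(u) + ∑_k z_k g_k(v)`, and the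
polynomial `∑_l w_l F_l`, where the `Δ_j` are the minors of size `p` of a generic matrix `u`, the `g_k`
are polynomials in two variables `v`, and the `F_l` are powers of such polynomials `F` in disjoint
sets of variables.

The proof (`Pool.Agent.Zk74.MC.Main`): the property of an ideal of the class is that every number `-n/a`
which belongs to a denominator of the series of the volumes of the sets `ord φ^* I ≥ e` is a forced
root. Globally this means that it is a root of every `b` in a functional equation of Budur, Mustata
and Saito for the family; at the origin, it is a root of `B(0, s)` for every such functional equation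
with a polynomial `B(x, s)` in the place of `b(s)`. For ideals generated by forms of the same degree the
two notions agree. The series of `I + J` is the Hadamard product of the series of `I` and `J`. -/

namespace Pool.Agent.Results.MP_b07157_ag.GlobalLocalClosure

open Pool.Agent.H628R4.TP Pool.Agent.TH192.DT Pool.Agent.R852.BM Pool.Agent.Zk74.MC

/-- **The strong monodromy conjecture for the motivic zeta functions, global (Q1) and local at the
origin (Q2), for the hypersurfaces of the class `Mot`.** (1) Let `F` be in the global class, with the
motivic zeta function `Z`, and let `b(s) F ^ s = P(s) F ^ (s + 1)` with `P(s)` in the Weyl algebra; for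
instance, let `b` be the Bernstein-Sato polynomial `b_F`. Then `Z` lies in the ring generated over `M`
by `T` and the `1 / (1 - L ^ q₁ T ^ q₂)`, `q₁ < 0 < q₂`, with `b(q₁ / q₂) = 0` (`RootPairs b`), and every
pole `s₀` of `Z` (`IsPoleU`, the definition of the problem) is a root of `b`. (2) Let `F` be in the class
at the origin, let `L⁻ⁿ Z` be its motivic zeta function at the origin, `n` the number of the variables,
and let `b(s) F ^ s = P(s) F ^ (s + 1)`, where `P(s)` is a differential operator whose coefficients are
formal (in particular convergent) power series at the origin; for instance, let `b` be the local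
Bernstein-Sato polynomial `b_{F,0}`. Then the same holds for `L⁻ⁿ Z`. -/
theorem result {M : Type} [CommRing M] (L : Mˣ) {σ : Type} (F : MvPolynomial σ ℂ)
    (Z : PowerSeries M) (b : Polynomial ℂ) :
    (Mot L false ⟨σ, Fin 1, fun _ => F⟩ Z → IsBFunction F b →
      Z ∈ ratU L (RootPairs b) ∧ ∀ s₀ : ℚ, IsPoleU L Z s₀ → b.eval (s₀ : ℂ) = 0) ∧
    (Mot L true ⟨σ, Fin 1, fun _ => F⟩ Z → IsLocalBFunction F b →
      PowerSeries.C ((L⁻¹ ^ Nat.card σ : Mˣ) : M) * Z ∈ ratU L (RootPairs b) ∧
      ∀ s₀ : ℚ, IsPoleU L (PowerSeries.C ((L⁻¹ ^ Nat.card σ : Mˣ) : M) * Z) s₀ →
        b.eval (s₀ : ℂ) = 0) := by
  refine ⟨fun h hb => ?_, fun h hb => ?_⟩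
  · have h1 := mot_hyp F Z h b hb 1
    rw [map_one, one_mul] at h1
    exact ⟨h1, fun s₀ hs₀ => root_of_poleU L h1 hs₀⟩
  · have h1 := mot_hyp_local F Z h b hb ((L⁻¹ ^ Nat.card σ : Mˣ) : M)
    exact ⟨h1, fun s₀ hs₀ => root_of_poleU L h1 hs₀⟩

end Pool.Agent.Results.MP_b07157_ag.GlobalLocalClosure
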