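import Pool.Agent.Zk74.HM.Mix
import Pool.Agent.R852.BM.Defs

set_option autoImplicit false

/-! # The strong motivic monodromy conjecture for products of powers of forms over products of
Hankel determinantal ideals

Let `x_0, …, x_{N - 1}` be the coordinates of the affine space. The Hankel matrices `(x_{i + j})` of
rank at most `d` form a closed subset `Σ_d`, `2 d < N`, of dimension `2 d`: the affine cone over the
variety of `d`-secant `(d - 1)`-planes of the rational normal curve of degree `N - 1`. Its ideal
`I_{d + 1}` is generated by the maximal minors of the `(d + 1) × (N - d)` Hankel matrix. Let `p t`,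
`t ∈ T`, be numbers with `2 p t < N`, distributed over blocks: `t` belongs to the block `β t ∈ B`. For
`b ∈ B` let

  `F_b = ∑_J y_{b,J} ∏_{β t = b} M_{t,J t}(x)`,

where `J` runs over the choices of one maximal minor `M_{t,J t}` of the `p t × (N + 1 - p t)` Hankel
matrix for each `t` in the block `b` (`blkH`), and the `y_{b,J}` are further variables. So `F_b` is the
general form over the ideal `∏_{β t = b} I_{p t}`. Let `f = ∏ b, F_b ^ a b` (`powProd`).

The resolution. Let `P` be the maximum of the `p t`, and let `Y` be obtained from the affine space by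
blowing up `Σ_0 = {0}` and the strict transforms of `Σ_1, …, Σ_{P - 1}`, in this order. It is smooth,
and the exceptional divisors `E_0, …, E_{P - 1}` cross normally (Bertram; Thaddeus; Vermeire). The
multiplicity of the Jacobian determinant along `E_d` is `ν_d - 1` with `ν_d = N - 2 d`, and `I_p` becomes
the ideal of the divisor `∑_{d < p} (p - d) E_d`. Locally `F_b` is the product of the equation of a
combination of the `E_d` with `y_{b,J} + ∑_{J' ≠ J} g_{J'} y_{b,J'}`. Hence `Y` times the space of the `y`
is an embedded resolution of `f`, with the components `E_d`, of multiplicity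
`∑ t, a (β t) * max (p t - d, 0)`, and, for `a b > 0`, the strict transform of `F_b = 0`, with
multiplicity `a b` and `ν = 1` (`mulHM`, `nuH`; in these definitions all `d < (N + 1) / 2` are listed, the
`d ≥ P` have the multiplicity `0` and do not matter).

So the motivic zeta functions `Z_f^mot` and `Z_{f,0}^mot` of the problem are of the form
`dlZ = ∑_J c_J ∏_{i ∈ J} u ^ (-ν_i) T ^ (N_i) / (1 - u ^ (-ν_i) T ^ (N_i))`, with `u = 𝕃`,
`R = 𝓜 = K₀(Var_ℂ)[𝕃⁻¹]` and `c_J = 𝕃 ^ (-n) (𝕃 - 1) ^ |J| [E_J°]`, respectively with
`[E_J° ∩ h⁻¹(0)]` in the place of `[E_J°]`. -/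

namespace Pool.Agent.Results.MP_b07157_ag.HankelProducts

open Pool.Agent.H628R4.TP Pool.Agent.TH192.DT Pool.Agent.R779.HK Pool.Agent.R852.BM
  Pool.Agent.Zk74.HM

/-- **The strong monodromy conjecture for the motivic zeta functions, global (Q1) and local at the
origin (Q2), of `f = ∏ b, F_b ^ a b`**, `F_b` the general form over the product of the ideals of the
`p t`-minors of the Hankel matrices in `N` variables, `β t = b`, `2 p t < N`. Let `b` satisfy a functional
equation `b(s) f ^ s = P(s) f ^ (s + 1)`, where `P(s)` is in the Weyl algebra, or is a differential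
operator with formal (in particular convergent) power series at the origin as coefficients; for
instance, let `b` be the Bernstein-Sato polynomial `b_f` or the local one `b_{f,0}`. (1) The numbers
`-(N - 2 d + l) / N_d`, `0 ≤ l < N_d`, for all `d`, where `N_d = ∑ t, a (β t) * max (p t - d, 0)`, and
`-(1 + l) / a b`, `0 ≤ l < a b`, are roots of `b`. (2) Every series `Z` of the form of the formula of Denef
and Loeser on the resolution described above, with arbitrary coefficients `χ J` in a commutative ring
`R` with a unit `u`, lies in the ring generated over `R` by `T` and the `1 / (1 - u ^ q₁ T ^ q₂)`,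
`q₁ < 0 < q₂`, with `b(q₁ / q₂) = 0` (`RootPairs b`); so every pole of `Z` is a root of `b`. -/
theorem result {T B : Type} [Fintype T] [DecidableEq T] [Fintype B] [DecidableEq B]
    (N : ℕ) (p : T → ℕ) (β : T → B) (a : B → ℕ) (hp : ∀ t, 2 * p t < N) (b : Polynomial ℂ)
    (hb : IsBFunction (powProd a (blkH N p β)) b ∨ IsLocalBFunction (powProd a (blkH N p β)) b) :
    (∀ (x : Fin ((N + 1) / 2) ⊕ B) (l : ℕ), l < mulHM N p β a x →
      b.eval (-((nuH N B x : ℂ) + l) / mulHM N p β a x) = 0) ∧
    ∀ (R : Type) [CommRing R] (u : Rˣ) (χ : Finset {x // 0 < mulHM N p β a x} → R),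
      dlZ u (nuH N B) (mulHM N p β a) χ ∈ ratU u (RootPairs b) ∧
      ∀ s₀ : ℚ, IsPoleU u (dlZ u (nuH N B) (mulHM N p β a) χ) s₀ → b.eval (s₀ : ℂ) = 0 := by
  have h1 := mix_roots_of N p β a hp b hb
  refine ⟨h1, fun R _ u χ => ?_⟩
  have h2 : dlZ u (nuH N B) (mulHM N p β a) χ ∈ ratU u (RootPairs b) := by
    refine ratU_mono u (fun q hq => ?_) (dlZ_mem u _ _ χ)
    have h3 := pairs_sign _ _ (nuH_pos N B) q hq
    exact ⟨h3.1, h3.2, pairs_roots _ _ (nuH_pos N B) b (fun x l hl => h1 x l hl) q hq⟩
  exact ⟨h2, fun s₀ hs₀ => root_of_poleU u h2 hs₀⟩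

end Pool.Agent.Results.MP_b07157_ag.HankelProducts
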