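import Pool.Agent.R852.MX.Top
import Pool.Agent.R852.BM.Det

set_option autoImplicit false

/-! # The strong motivic monodromy conjecture for products of powers of forms over products of
determinantal ideals

Let `x` be the generic matrix of one of the three spaces `S` of matrices: all `m × n` matrices, the
symmetric `n × n` matrices, the skew symmetric `n × n` matrices (`MSpace`). Let `p t`, `t < T`, be sizes
of minors (of Pfaffians of size `2 (p t)` in the skew symmetric case), `p t < min (m, n)`, `p t < n`, or
`2 (p t) + 1 < n` (`Small`), which are distributed over `B` blocks: `t` belongs to the block `β t`. For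
`b < B` let

  `F_b = ∑_J y_{b,J} ∏_{β t = b} M_{J t}(x)`,

where `J` runs over the choices of one minor (Pfaffian) `M_{J t}` of size `p t` for each `t` in the block
`b`, and the `y_{b,J}` are further variables. So `F_b` is the general form over the product of the
ideals of the minors of the sizes `p t`, `β t = b`. Let `F = ∏ b, F_b ^ a b`, `a b ≥ 1` (`mixForm`, with
integral coefficients).

The motivic zeta function `𝕃 ^ (-n) ∑_{l ≥ 0} [X_l] 𝕃 ^ (-n l) T ^ l`, `X_l` the set of the `l`-jets
`φ` with `φ(0) ∈ W` and `ord F(φ) = l`, is defined in the Grothendieck ring of complex varieties,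
localised at `𝕃` (`zetaMot F W`). By the formula of Denef and Loeser it is `Z_F^mot` for
`W = Set.univ`, and `Z_{F,0}^mot` for `W = {0}`. -/

namespace Pool.Agent.Results.MP_b07157_ag.MixedDeterminantal

open MvPolynomial Pool.Agent.H628R4.TP Pool.Agent.TH192.DT Pool.Agent.TH192.MT
  Pool.Agent.TH192.MU Pool.Agent.W428.MOT Pool.Agent.R852.MX Pool.Agent.R852.BM

/-- **The strong monodromy conjecture for the motivic zeta functions, global (Q1), local at the
origin (Q2) and with the origin of the arcs in any constructible set `W`, of the products
`F = ∏ b, F_b ^ a b` of powers of forms over products of determinantal ideals.** Let `b` be a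
polynomial with `b(s) F ^ s = P(s) F ^ (s + 1)`, `P(s)` in the Weyl algebra, for example the
Bernstein-Sato polynomial `b_F`, or more generally with `P(s)` a differential operator with (formal)
power series at the origin as coefficients, for example the local Bernstein-Sato polynomial
`b_{F,0}`. Then `zetaMot F W` lies, for every constructible set `W`, in the subring of `𝓜[[T]]`
generated by `𝓜`, `T` and the `1 / (1 - 𝕃 ^ q₁ T ^ q₂)`, `q₁ < 0 < q₂`, with `b(q₁ / q₂) = 0`; so every
pole `s₀` of `zetaMot F W` (`IsPoleU`, the definition of the problem) is a root of `b`. This is the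
meaning of `StrongMot F`. -/
theorem result (S : MSpace) (T B : ℕ) (p : Fin T → ℕ) (β : Fin T → Fin B) (a : Fin B → ℕ)
    (hp : ∀ t, S.Small (p t)) (ha : ∀ b, 0 < a b) :
    StrongMot (map (Int.castRingHom ℂ) (mixForm S p β a)) :=
  strongMot_of _ _ (mix_roots S p β a hp ha) fun _ hW => mix_zeta S p β a hp ha hW

end Pool.Agent.Results.MP_b07157_ag.MixedDeterminantal
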