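import Pool.Agent.Zk74.TS.Fin
import Pool.Agent.Zk74.TS.Conv

set_option autoImplicit false

/-! # The strong motivic monodromy conjecture for the Thom-Sebastiani sums `∑ y_j f_j(x) + g(z)`

Let `f_j(x)` and `g(z)` be polynomials in disjoint sets of variables, and let
`F = ∑_j y_j f_j(x) + g(z)`, with further variables `y_j` (`tsSum`). Here the ideal `(f_j)` is any
ideal of the class `ClTS L loc false`, and `g` is any polynomial of the class `ClTS L loc true`
(`Pool.Agent.Zk74.TS.Cls`); `loc = false` for the global zeta functions, `loc = true` for the local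
ones at the origin. `M` is a commutative ring with a unit `L`, for example `M = K₀(Var_ℂ)[1/L]`.

The polynomials `g` in the class: powers of a variable; plane curves, and all hypersurfaces of the
class `Cl`, whose motivic zeta functions have at most a simple pole at
`-1` (for the plane curves: in the contributions of the points); hypersurfaces of the class for which
`-1` is a double root of the `b` in the functional equations; the polynomials
`h ∏_t (∑_j y_{t, j} h_{t, j}) ^ a_t`, if the ideal `h ∏_t (h_{t, j})_j ^ a_t` is in the class; and again
the Thom-Sebastiani sums `F`. The ideals in the class: the ideals in `Cl` (ideals of `ℂ[x, y]`, cones in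
three variables, ideals of forms without common zero, ideals of minors, of Pfaffians and of minors of
Hankel matrices and their products, ideals with Rees divisors, …), the principal ideals of the
polynomials in the class and of their powers, and what is obtained from them by sums and products in
disjoint sets of variables, automorphisms, and the passage from the global to the local and from the
local to the global class for ideals which are generated by forms of the same degree.

For example, `F = y x ^ m + g(z₁, z₂)`, or `F = ∑_j y_j Δ_j(x) + g(z₁, z₂)`, where the `Δ_j` are the minors of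
size `p` of a generic matrix `x`, for all plane curve germs `g` whose motivic zeta function has at
most a simple pole at `-1`, and for all which have a double root `-1`.

The proof. Let `∑ V_e T^e` and `∑ W_e T^e` be the series of the volumes of the sets `ord (f_j) ≥ e` and
`ord g ≥ e`. Then the series of the volumes of the sets `ord F ≥ e`, times `1 - L⁻¹ T`, is the
coefficientwise product of `∑ V_e T^e` and of `(1 - L⁻¹ T) ∑ W_e T^e` (`rt_global`; at the origin, up to
the term of degree `0`, `rt_local`). The property of a polynomial `g` of the class is that all the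
denominators of the last series belong to reduced forced roots `β`: globally,
`(s + 1) (s - β)` divides all the `b` in the functional equations of `g`, and at the origin `B(0, β) = 0` for
all the equations `(s + 1) B(x, s) g ^ s = P(s) g ^ (s + 1)`. If `α` is a forced root of `(f_j)` and `β` is a
reduced forced root of `g`, then `α + β` is a reduced forced root of `F` (`rr_ts`, from the starting
files). -/

namespace Pool.Agent.Results.MP_b07157_ag.ThomSebastianiSums

open MvPolynomial Pool.Agent.H628R4.TP Pool.Agent.TH192.DT Pool.Agent.R852.BM
  Pool.Agent.W574.RO Pool.Agent.Zk74.TS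

/-- The polynomial `∑_j y_j f_j(x) + g(z)`. -/
noncomputable def tsSum (A : Fam) {τ : Type} (g : MvPolynomial τ ℂ) :
    MvPolynomial ((A.ι ⊕ A.σ) ⊕ τ) ℂ :=
  rename Sum.inl (∑ j, X (Sum.inl j) * rename Sum.inr (A.f j) : MvPolynomial (A.ι ⊕ A.σ) ℂ) +
    rename Sum.inr g

/-- **The strong monodromy conjecture for the motivic zeta functions of the Thom-Sebastiani sums
`F = ∑_j y_j f_j(x) + g(z)`, global (Q1) and local at the origin (Q2).** (1) Let the ideal of the family
`A = (f_j)` and the polynomial `g` be in the global classes, with the motivic zeta functions `Z` and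
`W`. Then `F` has the motivic zeta function `zTS L false Z W`. Let `b(s) F ^ s = P(s) F ^ (s + 1)` with
`P(s)` in the Weyl algebra; for instance, let `b` be the Bernstein-Sato polynomial `b_F`. Then
`zTS L false Z W` lies in the ring generated over `M` by `T` and the `1 / (1 - L ^ q₁ T ^ q₂)`,
`q₁ < 0 < q₂`, with `b(q₁ / q₂) = 0` (`RootPairs b`), and every pole `s₀` (`IsPoleU`, the definition of the
problem) is a root of `b`. Moreover, `b = (s + 1) b'`, and the series of the volumes of the sets
`ord F ≥ e` (`vol`), times `1 - L⁻¹ T`, lies in the ring with the denominators which belong to roots of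
`b'`. (2) The same for the local motivic zeta functions at the origin, where `b` satisfies a
functional equation with a differential operator `P(s)` whose coefficients are formal (in particular
convergent) power series at the origin; for instance, `b` is the local Bernstein-Sato polynomial
`b_{F,0}`. Here `Z`, `W` and `zTS L true Z W` are normalized such that the volume of the set of the arcs
with the origin `0` is `1`; the motivic zeta function `Z_{F,0}^mot` of the problem is
`L⁻ⁿ (zTS L true Z W)`, `n` the number of the variables. -/
theorem result {M : Type} [CommRing M] (L : Mˣ) (A : Fam) {τ : Type} (g : MvPolynomial τ ℂ)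
    (Z W : PowerSeries M) (b : Polynomial ℂ) :
    (ClTS L false false A Z → ClTS L false true ⟨τ, Fin 1, fun _ => g⟩ W →
      IsBFunction (tsSum A g) b →
      (zTS L false Z W ∈ ratU L (RootPairs b) ∧
        ∀ s₀ : ℚ, IsPoleU L (zTS L false Z W) s₀ → b.eval (s₀ : ℂ) = 0) ∧
      ∃ b' : Polynomial ℂ, b = (Polynomial.X + 1) * b' ∧
        (1 - PowerSeries.C ((L⁻¹ : Mˣ) : M) * PowerSeries.X) * vol (zTS L false Z W) ∈
          ratU L (RootPairs b')) ∧
    (ClTS L true false A Z → ClTS L true true ⟨τ, Fin 1, fun _ => g⟩ W →
      IsLocalBFunction (tsSum A g) b →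
      (PowerSeries.C ((L⁻¹ ^ Nat.card ((A.ι ⊕ A.σ) ⊕ τ) : Mˣ) : M) * zTS L true Z W ∈
          ratU L (RootPairs b) ∧
        ∀ s₀ : ℚ, IsPoleU L (PowerSeries.C ((L⁻¹ ^ Nat.card ((A.ι ⊕ A.σ) ⊕ τ) : Mˣ) : M) *
          zTS L true Z W) s₀ → b.eval (s₀ : ℂ) = 0) ∧
      ∃ b' : Polynomial ℂ, b = (Polynomial.X + 1) * b' ∧
        (1 - PowerSeries.C ((L⁻¹ : Mˣ) : M) * PowerSeries.X) * vol (zTS L true Z W) ∈
          ratU L (RootPairs b')) := by
  refine ⟨fun hA hg hb => ?_, fun hA hg hb => ?_⟩
  · have h := MT.ts false A τ g Z W hA.toMT hg.toMT
    have h1 := mt_hyp true (tsSum A g) _ h b hb 1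
    rw [map_one, one_mul] at h1
    have h2 := mt_red (tsSum A g) _ h b hb
    rw [qq11] at h2
    exact ⟨⟨h1, fun s₀ hs₀ => root_of_poleU L h1 hs₀⟩, h2⟩
  · have h := MT.ts true A τ g Z W hA.toMT hg.toMT
    have h1 := mt_hyp_local true (tsSum A g) _ h b hb
      ((L⁻¹ ^ Nat.card ((A.ι ⊕ A.σ) ⊕ τ) : Mˣ) : M)
    have h2 := mt_red_local (tsSum A g) _ h b hb
    rw [qq11] at h2
    exact ⟨⟨h1, fun s₀ hs₀ => root_of_poleU L h1 hs₀⟩, h2⟩

end Pool.Agent.Results.MP_b07157_ag.ThomSebastianiSums
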